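import Mathlib
import Pool.Agent.MP_2fe25f_gt.Mg.Game

set_option autoImplicit false

namespace Pool.Agent.Results.MP_2fe25f_gt.BorelArc

open Set Pool.Agent.MP_2fe25f_gt

universe u

/-- Connected Borel subsets of finitely Suslinean compact metric spaces are arcwise connected. -/
theorem result (X : Type u) [MetricSpace X] [CompactSpace X]
    (hX : ∀ ε : ℝ, 0 < ε → ∀ 𝒦 : Set (Set X),
      (∀ K ∈ 𝒦, IsCompact K ∧ IsConnected K ∧ ε < Metric.diam K) → 𝒦.Pairwise Disjoint →
        𝒦.Finite)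
    (C : Set X) (hC : IsPreconnected C)
    (hB : ∀ 𝒮 : Set (Set X), (∀ F : Set X, IsClosed F → F ∈ 𝒮) → (∀ A ∈ 𝒮, Aᶜ ∈ 𝒮) →
      (∀ f : ℕ → Set X, (∀ n, f n ∈ 𝒮) → ⋂ n, f n ∈ 𝒮) → C ∈ 𝒮) :
    ∀ x ∈ C, ∀ y ∈ C, x ≠ y → ∃ A : Set X, A ⊆ C ∧
      ∃ h : unitInterval ≃ₜ A, (h 0 : X) = x ∧ (h 1 : X) = y := by
  intro x hx y hy hxy
  have hB' : @MeasurableSet X (borel X) C := by
    let _ := borel X
    have : BorelSpace X := ⟨rfl⟩
    exact hB {A | MeasurableSet A} (fun F hF => hF.measurableSet)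
      (fun A (hA : MeasurableSet A) => hA.compl)
      fun f (hf : ∀ n, MeasurableSet (f n)) => MeasurableSet.iInter hf
  have : CompactSpace (closure C) := isCompact_iff_compactSpace.1 isClosed_closure.isCompact
  have : ConnectedSpace (closure C) :=
    isConnected_iff_connectedSpace.1 ⟨⟨x, subset_closure hx⟩, hC.closure⟩
  let i := (kuratowskiEmbedding.isometry (closure C)).isometryEquivOnRange
  have := i.toHomeomorph.compactSpace
  have := i.surjective.connectedSpace i.continuous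
  let g : range (kuratowskiEmbedding (closure C)) → X := fun z => (i.symm z : X)
  have hg : Isometry g := isometry_subtype_coe.comp i.symm.isometry
  have hs : ∀ z ∈ C, ∃ w, g w = z := fun z hz => ⟨i ⟨z, subset_closure hz⟩, by simp [g]⟩
  have hF : FS (range (kuratowskiEmbedding (closure C))) := fs_of fun ε hε ⟨f, h1, h2⟩ => by
    have h3 : Pairwise fun m n => Disjoint (g '' f m) (g '' f n) := fun m n hmn =>
      (disjoint_image_iff hg.injective).2 (h2 hmn)
    refine infinite_range_of_injective (f := fun n => g '' f n) (fun m n hmn => ?_)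
      (hX ε hε _ ?_ ?_)
    · by_contra hne
      have h4 : Disjoint (g '' f m) (g '' f n) := h3 hne
      rw [show g '' f m = g '' f n from hmn, disjoint_self] at h4
      exact ((h1 n).2.1.nonempty.image g).ne_empty h4
    · rintro _ ⟨n, rfl⟩
      exact ⟨(h1 n).1.image hg.continuous, (h1 n).2.1.image g hg.continuous.continuousOn,
        by rw [hg.diam_image]; exact (h1 n).2.2⟩
    · rintro _ ⟨m, rfl⟩ _ ⟨n, rfl⟩ hmn
      exact h3 fun h => hmn (by rw [h])
  obtain ⟨x', rfl⟩ := hs x hx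
  obtain ⟨y', rfl⟩ := hs y hy
  obtain ⟨γ, k1, k2, k3, k4, k5⟩ := hF.borel_arc (C := g ⁻¹' C)
    (hg.isEmbedding.isInducing.isPreconnected_image.1 (by
      rw [image_preimage_eq_of_subset fun z hz => hs z hz]
      exact hC))
    (hg.continuous.borel_measurable hB') hx hy fun h => hxy (by rw [h])
  have he := ((hg.continuous.comp k1).isClosedEmbedding (hg.injective.comp k2)).isEmbedding
  refine ⟨range (g ∘ γ), ?_, he.toHomeomorph, ?_, ?_⟩
  · rintro _ ⟨t, rfl⟩
    exact k5 ⟨t, rfl⟩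
  · rw [← k3]
    rfl
  · rw [← k4]
    rfl

end Pool.Agent.Results.MP_2fe25f_gt.BorelArc
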